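import Pool.Agent.helper54.STB.Spec

/-!
# Row sb:SRB: second case of the start, final form, version 2 (helper11)
-/

set_option autoImplicit false

open Complex Metric Set Filter Topology MeasureTheory
open STA

noncomputable section

namespace STB

theorem SRB_mid {F : Sys} {κ s κ' : ℝ} {a m : ℕ} (h : MID F κ s a m) (hκ : κ ≤ κ') :
    MID F κ' s a m where
  ok := h.ok
  a1 := h.a1
  am := h.am
  s0 := h.s0
  s1 := h.s1.trans hκ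
  gm := h.gm
  im := h.im
  tm := fun z hz => (h.tm z hz).trans hκ
  ta := h.ta
  va := fun z hz z' hz' => (h.va z hz z' hz').trans
    (mul_le_mul_of_nonneg_right (by linarith) (norm_nonneg _))
  fa := h.fa
  tr := fun i h1 h2 z hz z' hz' h3 => (h.tr i h1 h2 z hz z' hz' h3).trans (by linarith)
  re := h.re

theorem SRB_prm {F : Sys} {e e' θ κ κ' s : ℝ} {a m : ℕ} (h : PRM F e θ κ s a m) (he : e ≤ e') (hκ : κ ≤ κ') :
    PRM F e' θ κ' s a m where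
  ok := h.ok
  a1 := h.a1
  am := h.am
  s0 := h.s0
  s1 := h.s1.trans hκ
  gm := h.gm
  im := h.im
  tm := h.tm
  ta := h.ta
  na := fun z hz => (h.na z hz).trans (mul_le_mul_of_nonneg_right he h.s0.le)
  nm := fun z hz => (h.nm z hz).trans (mul_le_mul_of_nonneg_right he (add_nonneg (norm_nonneg _) h.s0.le))
  fa := h.fa
  tr := by
    intro i h1 h2 z hz z' hz' h4
    have h5 := h.tr i h1 h2 z hz z' hz' h4
    have h6 : (e / 8) * ‖T F i z‖ ≤ (e' / 8) * ‖T F i z‖ :=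
      mul_le_mul_of_nonneg_right (by linarith) (norm_nonneg _)
    have h7 : (e / 8) * s ≤ (e' / 8) * s := mul_le_mul_of_nonneg_right (by linarith) h.s0.le
    linarith
  mn := h.mn
  ns := h.ns

theorem SRB_comp (Y : Sys) (y r : ℂ) (ρ : ℂ) : PVs 0 ρ (PVs y r Y) = PVs y (r * ρ) Y := by
  unfold PVs
  simp only [Sys.mk.injEq]
  constructor
  · funext w
    have h1 : y + r * (0 + ρ * w) = y + r * ρ * w := by ring
    rw [h1, sub_zero, div_div]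
  · funext k w
    have h1 : y + r * (0 + ρ * w) = y + r * ρ * w := by ring
    rw [h1]

/-- the primitive at the smaller place. -/
theorem SRB_W (hPVF : STA.PVF_stmt) (F : Sys) (ρ : ℝ) (hρ : 0 < ρ) (hρ1 : ρ ≤ 1) (a m : ℕ) (W : ℂ → ℂ)
    (hW : ∀ z ∈ ball (0 : ℂ) 1, HasDerivAt W (1 / T F a z) z) :
    (∀ z ∈ ball (0 : ℂ) 1, HasDerivAt (fun z => W ((ρ : ℂ) * z)) (1 / T (PVs 0 (ρ : ℂ) F) a z) z) ∧
      BW (PVs 0 (ρ : ℂ) F) (fun z => W ((ρ : ℂ) * z)) m 0 = BW F W m 0 := by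
  have hρc : (ρ : ℂ) ≠ 0 := by exact_mod_cast hρ.ne'
  obtain ⟨h1, h2, -, -⟩ := hPVF F 0 (ρ : ℂ) hρc
  constructor
  · intro z hz
    have hz1 : (ρ : ℂ) * z ∈ ball (0 : ℂ) 1 := by
      rw [mem_ball_zero_iff] at hz ⊢
      rw [norm_mul, Complex.norm_real, Real.norm_eq_abs, abs_of_pos hρ]
      calc ρ * ‖z‖ ≤ 1 * ‖z‖ := mul_le_mul_of_nonneg_right hρ1 (norm_nonneg _)
        _ < 1 := by rw [one_mul]; exact hz
    have h3 := hW _ hz1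
    have h4 : HasDerivAt (fun z : ℂ => (ρ : ℂ) * z) (ρ : ℂ) z := by
      simpa using (hasDerivAt_id z).const_mul (ρ : ℂ)
    have h5 := h3.comp z h4
    have h6 : 1 / T (PVs 0 (ρ : ℂ) F) a z = 1 / T F a ((ρ : ℂ) * z) * (ρ : ℂ) := by
      rw [h2 a z, zero_add, one_div_div, div_eq_mul_inv, one_div, mul_comm]
    rw [h6]
    exact h5
  · have h3 := h1 m 0
    unfold BW
    rw [zero_add] at h3
    simp only [mul_zero]
    rw [h3]
    simp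

theorem SRB (hPVF : STA.PVF_stmt) (hPLN : PLN_stmt) (hPL2 : PL2_stmt) (hMNX : MNX_stmt) (hPRX : PRX_stmt)
    (hRDB : RDB_stmt) (hPRC : PRC_stmt) (hSRC : SRC_stmt) : SRB_stmt := by
  intro Y J μ N₀ hY hJ hμ hN₀ hR e ε η del he he5 hε hε14 hη hdel hdel100
  obtain ⟨eR, θ₁, heR, hθ₁, hRAD⟩ := hR
  obtain ⟨ρR, θX, hρR, hρR1, hθX, hX⟩ := hPRX (min eR (1 / 10)) (lt_min heR (by norm_num)) (min_le_right _ _)
  obtain ⟨θD, hθD, hD⟩ := hRDB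
  obtain ⟨θ', hθ', hθ'1, hθ'X, hθ'D, hθ'M⟩ : ∃ θ' : ℝ, 0 < θ' ∧ θ' ≤ θ₁ ∧ ρR * θ' / 4 ≤ θX ∧ ρR * θ' / 4 ≤ θD ∧
      ρR * θ' / 4 ≤ 1 / 1000 := by
    refine ⟨min θ₁ (min θX (min θD (1 / 1000))), ?_, min_le_left _ _, ?_, ?_, ?_⟩
    · exact lt_min hθ₁ (lt_min hθX (lt_min hθD (by norm_num)))
    all_goals
      have h0 : 0 < min θ₁ (min θX (min θD (1 / 1000))) :=
        lt_min hθ₁ (lt_min hθX (lt_min hθD (by norm_num)))
      have h1 : ρR * min θ₁ (min θX (min θD (1 / 1000))) / 4 ≤ min θ₁ (min θX (min θD (1 / 1000))) := by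
        nlinarith
      refine h1.trans ?_
    · exact (min_le_right _ _).trans (min_le_left _ _)
    · exact (min_le_right _ _).trans ((min_le_right _ _).trans (min_le_left _ _))
    · exact (min_le_right _ _).trans ((min_le_right _ _).trans (min_le_right _ _))
  have hθ : 0 < ρR * θ' / 4 := by positivity
  obtain ⟨κR, hκR, hRAD'⟩ := hRAD θ' hθ' hθ'1
  have he10 : e / 2 ≤ 1 / 10 := by
    have : (1 : ℝ) / 10 ^ 5 ≤ 1 / 10 := by norm_num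
    linarith
  obtain ⟨ρ1, hρ1, hρ1b, hP⟩ := hPRC (e / 2) (by linarith) he10
  obtain ⟨ρ2, hρ2, hρ2b, hQ⟩ := hPL2 Y J μ hY hJ hμ del hdel hdel100
  obtain ⟨κS, hκS, hS⟩ := hSRC e N₀ he he5 (by linarith) ε hε hε14
  obtain ⟨κ1, hκ1, hP1⟩ := hP κS hκS
  obtain ⟨κ2, hκ2, hD2⟩ := hD (ρR * θ' / 4) hθ hθ'D (N₀ - 1) κ1 (by linarith) hκ1
  obtain ⟨κX, hκX, hX2⟩ := hX θ' hθ' hθ'X κR hκR
  obtain ⟨κM, hκM, hM2⟩ := hMNX (ρR * θ' / 4) hθ hθ'M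
  refine ⟨ρ2 * ρ1, mul_pos hρ2 hρ1, ?_, ?_⟩
  · calc ρ2 * ρ1 ≤ 1 * 1 := mul_le_mul (by linarith) (by linarith) hρ1.le (by norm_num)
      _ = 1 := by norm_num
  intro δ hδ hδd U y r c hPLS a h q hAHQ
  obtain ⟨y', r', mm, hPLS', hyr, hM⟩ := hQ δ hδ hδd U y r c hPLS a h q hAHQ
  have hζ : ∀ j : ℕ, ‖((fun _ => (ρ1 : ℂ)) : ℕ → ℂ) j‖ = ρ1 := by
    intro j
    simp only [Complex.norm_real, Real.norm_eq_abs, abs_of_pos hρ1]
  have hw0 : ∀ j : ℕ, ‖((fun _ => (0 : ℂ)) : ℕ → ℂ) j‖ ≤ 1 / 2 := by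
    intro j
    simp
  have hPLS2 := hPLN.2 J μ U y' r' c hPLS' (fun _ => 0) (fun _ => (ρ1 : ℂ)) ρ1 hρ1 (by linarith) hζ hw0
  filter_upwards [hM (min κ2 (min κX κM)) (lt_min hκ2 (lt_min hκX hκM)), hPLS2.fl η hη] with j hj hfl
  obtain ⟨hyJ, s, hMID⟩ := hj
  have hMIDX := SRB_mid hMID ((min_le_right κ2 (min κX κM)).trans (min_le_left _ _))
  obtain ⟨m, hmM, hMNR⟩ := hM2 _ s (a j) (mm j)
    (SRB_mid hMID ((min_le_right κ2 (min κX κM)).trans (min_le_right _ _)))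
  have hPRM := hX2 _ s (a j) m (mm j) hMIDX hmM hMNR
  rw [SRB_comp] at hPRM
  have hρRc : (ρR : ℂ) ≠ 0 := by exact_mod_cast hρR.ne'
  have hρ1c : (ρ1 : ℂ) ≠ 0 := by exact_mod_cast hρ1.ne'
  have hrR0 : r' j * (ρR : ℂ) ≠ 0 := mul_ne_zero (hPLS'.r0 j) hρRc
  have hrR1 : ‖r' j * (ρR : ℂ)‖ ≤ 1 := by
    rw [norm_mul, Complex.norm_real, Real.norm_eq_abs, abs_of_pos hρR]
    calc ‖r' j‖ * ρR ≤ 1 * 1 := mul_le_mul (hPLS'.r1 j) (by linarith) hρR.le (by norm_num)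
      _ = 1 := by norm_num
  have hIm : ∀ W : ℂ → ℂ, (∀ z ∈ ball (0 : ℂ) 1, HasDerivAt W (1 / T (PVs (y' j) (r' j) Y) (a j) z) z) →
      |(BW (PVs (y' j) (r' j) Y) W m 0).im| ≤ N₀ - 1 := by
    intro W hW
    obtain ⟨h1, h2⟩ := SRB_W hPVF (PVs (y' j) (r' j) Y) ρR hρR (by linarith) (a j) m W hW
    rw [← h2]
    rw [SRB_comp] at h1 ⊢
    exact hRAD' (y' j) (r' j * ρR) (s / ρR) (a j) m hyJ hrR0 hrR1
      (SRB_prm hPRM (min_le_left _ _) le_rfl) _ h1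
  obtain ⟨m', hm'M, hMID', hIm'⟩ := hD2 _ s (a j) m (mm j) (SRB_mid hMID (min_le_left _ _)) hmM hMNR hIm
  have hPRB := hP1 _ s (a j) m' hMID'
  have hratio : T (PVs 0 (ρ1 : ℂ) (PVs (y' j) (r' j) Y)) m' 0 / T (PVs 0 (ρ1 : ℂ) (PVs (y' j) (r' j) Y)) (a j) 0 =
      T (PVs (y' j) (r' j) Y) m' 0 / T (PVs (y' j) (r' j) Y) (a j) 0 := by
    obtain ⟨-, h2, -, -⟩ := hPVF (PVs (y' j) (r' j) Y) 0 (ρ1 : ℂ) hρ1c
    rw [h2, h2, mul_zero, add_zero, div_div_div_cancel_right₀ hρ1c]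
  have h2 := hS _ (s / ρ1) (a j) m' hPRB (by rw [hratio]; linarith)
  rw [SRB_comp] at h2
  refine ⟨y' j, r' j * ρ1, hyJ, (hyr j).1, ?_, ?_, ?_⟩
  · rw [norm_mul, (hyr j).2, Complex.norm_real, Real.norm_eq_abs, abs_of_pos hρ1]
    ring
  · have h3 : y' j + r' j * 0 = y' j := by ring
    have h4 := hfl
    simp only [h3] at h4
    exact h4
  · rcases h2 with ⟨M, hM0, hMε, hL⟩ | ⟨s', a', b', hs', hO, _⟩ | ⟨hs, hO⟩
    · left
      refine ⟨M, hM0, hMε, ?_⟩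
      intro wp wq hV
      obtain ⟨σ, a', b', hLev, hab, _⟩ := hL wp wq hV
      exact ⟨σ, a', b', hLev, hab⟩
    · right; left
      exact ⟨s', a', b', hs', hO⟩
    · right; right
      exact ⟨s / ρ1, a j, m', hs, hO⟩

end STB
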